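import Pool.Agent.Helper70.BRT.Spec

/-! # PMOD: the structures of the final statement are `PModel`s -/

namespace Pool.Agent.Helper70.BRT

open BRTStmt

universe u

theorem st_PMOD : ST_PMOD.{u} := by
  intro M i0 i1 ia im il h
  classical
  have hzero_add : ∀ x : M, 0 + x = x := fun x => by rw [h.add_comm, h.add_zero]
  have hone_mul : ∀ x : M, 1 * x = x := fun x => by rw [h.mul_comm, h.mul_one]
  have hzero_mul : ∀ x : M, 0 * x = 0 := fun x => by rw [h.mul_comm, h.mul_zero]
  let CS : CommSemiring M :=
    { zero := i0.zero
      one := i1.one
      add := ia.add
      mul := im.mul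
      add_assoc := h.add_assoc
      zero_add := hzero_add
      add_zero := h.add_zero
      add_comm := h.add_comm
      left_distrib := h.mul_add
      right_distrib := fun x y z => by
        rw [h.mul_comm, h.mul_add, h.mul_comm z x, h.mul_comm z y]
      zero_mul := hzero_mul
      mul_zero := h.mul_zero
      mul_assoc := h.mul_assoc
      one_mul := hone_mul
      mul_one := h.mul_one
      mul_comm := h.mul_comm
      nsmul := nsmulRec
      npow := npowRec }
  let LO : LinearOrder M :=
    { le := fun x y => x < y ∨ x = y
      lt := fun x y => x < y
      le_refl := fun x => Or.inr rfl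
      le_trans := fun x y z hxy hyz => by
        rcases hxy with hxy | rfl
        · rcases hyz with hyz | rfl
          · exact Or.inl (h.lt_trans x y z hxy hyz)
          · exact Or.inl hxy
        · exact hyz
      lt_iff_le_not_ge := fun x y => by
        constructor
        · intro hxy
          refine ⟨Or.inl hxy, ?_⟩
          rintro (hyx | rfl)
          · exact h.lt_irrefl x (h.lt_trans x y x hxy hyx)
          · exact h.lt_irrefl y hxy
        · rintro ⟨hxy | rfl, h2⟩
          · exact hxy
          · exact absurd (Or.inr rfl) h2
      le_antisymm := fun x y hxy hyx => by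
        rcases hxy with hxy | rfl
        · rcases hyx with hyx | rfl
          · exact absurd (h.lt_trans x y x hxy hyx) (h.lt_irrefl x)
          · rfl
        · rfl
      le_total := fun x y => by
        rcases h.lt_total x y with h1 | h1 | h1
        · exact Or.inl (Or.inl h1)
        · exact Or.inl (Or.inr h1)
        · exact Or.inr (Or.inl h1)
      toDecidableLE := Classical.decRel _ }
  let I : PModel M :=
    { toCommSemiring := CS
      toLinearOrder := LO
      add_lt_add_right'' := fun a b c hab => h.add_lt_add a b c hab
      mul_lt_mul_right'' := fun a b c hab hc => h.mul_lt_mul a b c hc hab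
      exists_add'' := fun a b hab => by
        rcases hab with hab | rfl
        · exact h.exists_add a b hab
        · exact ⟨0, h.add_zero a⟩
      zero_le'' := fun a => by
        rcases h.nonneg a with h1 | h1
        · exact Or.inr h1.symm
        · exact Or.inl h1
      zero_lt_one'' := h.zero_lt_one
      discrete'' := fun a ha => by
        rcases h.discrete a ha with h1 | h1
        · exact Or.inr h1.symm
        · exact Or.inl h1 }
  exact ⟨I, rfl, rfl, rfl, rfl, rfl⟩

end Pool.Agent.Helper70.BRT
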