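import Pool.Agent.Helper70.BRT.Spec

/-! # UPD: a `Π₁` set can be added to the oracles -/

namespace Pool.Agent.Helper70.BRT

universe u

theorem UPD_pi_bex {M : Type u} [PModel M] {A : ℕ → Set M} (hA : Coll1 A) {Γ : Type u} [Ctx M Γ]
    {t : Γ → M} (ht : Rec A t) {R : Γ → M → Prop}
    (hR : Pi1 A (fun g : Γ × M => R g.1 g.2)) : Pi1 A (fun g => ∃ x, x < t g ∧ R g x) :=
  Sig1.congr (Sig1.ball hA ht (R := fun g x => ¬ R g x) hR) fun g => by push Not; rfl

theorem UPD_tm_rec {M : Type u} [PModel M] {A : ℕ → Set M} {Γ : Type u} [Ctx M Γ] (t : Tm M)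
    (V : ℕ → Γ → M) (hV : ∀ i, Rec A (V i)) : Rec A (fun g => t.eval (fun i => V i g)) := by
  induction t with
  | var i => exact hV i
  | const c => exact Rec.const c
  | add s t hs ht => exact hs.add ht
  | mul s t hs ht => exact hs.mul ht

theorem UPD_tm_mono {M : Type u} [PModel M] (t : Tm M) (v w : ℕ → M) (h : ∀ i, v i ≤ w i) :
    t.eval v ≤ t.eval w := by
  induction t with
  | var i => exact h i
  | const c => exact le_rfl
  | add s t hs ht =>
    change s.eval v + t.eval v ≤ s.eval w + t.eval w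
    gcongr
  | mul s t hs ht =>
    change s.eval v * t.eval v ≤ s.eval w * t.eval w
    gcongr

theorem UPD_env_rec {M : Type u} [PModel M] {A : ℕ → Set M} {Γ Δ : Type u} [Ctx M Γ] [Ctx M Δ]
    {F : Γ → Δ} (hF : Rec A F) (i : ℕ) : Rec A (fun g => (env (F g) : ℕ → M) i) := by
  unfold env
  by_cases h : i < Ctx.n M Δ
  · simp only [h, if_true]
    exact (hF i h).toRec
  · simp only [h, if_false]
    exact Rec.const 0

/-- Codes of initial segments of a `Π₁` set. -/
theorem UPD_code {M : Type u} [PModel M] {bd : M → M} (hbd : CodAPI M bd) {A : ℕ → Set M}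
    (hA : Nice A) {G : Set M} (hG : Pi1 A (fun x => x ∈ G)) (n : M) :
    ∃ s : M, ∀ x, el x s ↔ x < n ∧ x ∈ G := by
  have h1 : RecP A (fun x => ¬ (x < n ∧ ¬ x ∈ G)) := (hA.strong hG n).not
  refine ⟨mk n (fun x => ¬ (x < n ∧ ¬ x ∈ G)), fun x => ?_⟩
  rw [hbd.mk_spec A hA.base _ h1 n x]
  tauto

/-- Collection. -/
theorem UPD_coll (hOR : ST_OR.{u}) (hOS : ST_OS.{u}) {M : Type u} [PModel M] {bd : M → M}
    (hbd : CodAPI M bd) {A : ℕ → Set M} (hA : Nice A) {j : ℕ} {G : Set M}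
    (hG : Pi1 A (fun x => x ∈ G)) : Coll1 (Function.update A j G) := by
  intro R hR a hxy
  obtain ⟨φ, hφ⟩ := hR
  obtain ⟨t, ht⟩ := hOR M φ j
  obtain ⟨D, hD, hGD⟩ := sig1_iff.mp hG
  -- the matrix, in the context `(((x, y), z), s), q`
  let Q : ((((M × M) × M) × M) × M) → Prop := fun g =>
    ((∀ w, w < t.eval (env g.1.1) → (el w g.1.2 → w ∈ G)) ∧
      (∀ w, w < t.eval (env g.1.1) → (¬ el w g.1.2 → ∃ r, r < g.2 ∧ D (w, r)))) ∧
      φ.eval (Function.update A j {x | el x g.1.2}) (env g.1.1)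
  have hel : ∀ {Γ : Type u} [Ctx M Γ] {F H : Γ → M}, Rec A F → Rec A H →
      RecP A (fun g => el (F g) (H g)) := fun {Γ} _ {F H} hF hH =>
    RecP.comp (R := fun z : M × M => el z.1 z.2) (hbd.el_rec.of_pure A) (hF.prodMk hH)
  have hQ : Pi1 A Q := by
    refine Pi1.and (Pi1.and ?_ ?_) ?_
    · refine Pi1.ball (t := fun g : ((((M × M) × M) × M) × M) => t.eval (env g.1.1))
        (UPD_tm_rec t (fun i (g : ((((M × M) × M) × M) × M)) => env g.1.1 i)
          fun i => UPD_env_rec PMap.id.fst.fst.rec i)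
        (R := fun g w => el w g.1.2 → w ∈ G) ?_
      refine sig1_or_pi1 (R := fun g : ((((M × M) × M) × M) × M) × M => el g.2 g.1.1.2)
        (S := fun g => g.2 ∈ G) ?_ ?_
      · exact (hel PMap.id.snd.rec PMap.id.fst.fst.snd.rec).1
      · exact Pi1.comp (R := fun x => x ∈ G) hG PMap.id.snd.rec
    · refine Pi1.ball (t := fun g : ((((M × M) × M) × M) × M) => t.eval (env g.1.1))
        (UPD_tm_rec t (fun i (g : ((((M × M) × M) × M) × M)) => env g.1.1 i)
          fun i => UPD_env_rec PMap.id.fst.fst.rec i)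
        (R := fun g w => ¬ el w g.1.2 → ∃ r, r < g.2 ∧ D (w, r)) ?_
      refine RecP.pi1 ?_
      refine RecP.imp ((hel PMap.id.snd.rec PMap.id.fst.fst.snd.rec).not) ?_
      refine RecP.bex hA.coll1 (t := fun g : ((((M × M) × M) × M) × M) × M => g.1.2)
        PMap.id.fst.snd.rec (R := fun g r => D (g.2, r)) ?_
      exact hD.recP.comp ((PMap.id.fst.snd.prodMk PMap.id.snd).rec)
    · refine RecP.pi1 ?_
      exact hOS M bd hbd A hA.base φ j _ (fun i (g : ((((M × M) × M) × M) × M)) => env g.1.1 i)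
        (fun g => g.1.2) (fun i => UPD_env_rec PMap.id.fst.fst.rec i) PMap.id.fst.snd.rec
  have hsound : ∀ x y z s q, Q ((((x, y), z), s), q) → R (x, y) := by
    rintro x y z s q ⟨⟨h1, h2⟩, h3⟩
    refine (hφ (x, y)).mpr ⟨z, ?_⟩
    rw [← env_cons]
    refine (ht A G {x | el x s} (env ((x, y), z)) ?_).mpr h3
    intro w hw
    constructor
    · intro hwG
      by_contra hel'
      obtain ⟨r, -, hr⟩ := h2 w hw hel'
      exact (hGD w).mpr ⟨r, hr⟩ hwG
    · exact h1 w hw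
  have hcompl : ∀ x y, R (x, y) → ∃ z s q, Q ((((x, y), z), s), q) := by
    intro x y hxy
    obtain ⟨z, hz⟩ := (hφ (x, y)).mp hxy
    rw [← env_cons] at hz
    obtain ⟨s, hs⟩ := UPD_code hbd hA hG (t.eval (env ((x, y), z)))
    obtain ⟨q, hq⟩ := hA.coll1 (fun g => el g.1 s ∨ D g)
      ((hel PMap.id.fst.rec (Rec.const s)).or hD.recP).1 (t.eval (env ((x, y), z))) (by
        intro w hw
        by_cases h : el w s
        · exact ⟨0, Or.inl h⟩
        · have : ¬ w ∈ G := fun hwG => h ((hs w).mpr ⟨hw, hwG⟩)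
          obtain ⟨r, hr⟩ := (hGD w).mp this
          exact ⟨r, Or.inr hr⟩)
    refine ⟨z, s, q, ⟨⟨fun w hw h => ((hs w).mp h).2, fun w hw h => ?_⟩, ?_⟩⟩
    · obtain ⟨r, hr, h1 | h1⟩ := hq w hw
      · exact absurd h1 h
      · exact ⟨r, hr, h1⟩
    · refine (ht A G {x | el x s} (env ((x, y), z)) ?_).mp hz
      intro w hw
      constructor
      · intro hwG
        exact (hs w).mpr ⟨hw, hwG⟩
      · intro h
        exact ((hs w).mp h).2
  have hU : Pi1 A (fun g : M × M => ∃ y, y < g.2 ∧ ∃ z, z < g.2 ∧ ∃ s, s < g.2 ∧ ∃ q, q < g.2 ∧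
      Q ((((g.1, y), z), s), q)) := by
    refine UPD_pi_bex hA.coll1 (t := fun g : M × M => g.2) PMap.id.snd.rec
      (R := fun g y => ∃ z, z < g.2 ∧ ∃ s, s < g.2 ∧ ∃ q, q < g.2 ∧
      Q ((((g.1, y), z), s), q)) ?_
    refine UPD_pi_bex hA.coll1 (t := fun g : (M × M) × M => g.1.2) PMap.id.fst.snd.rec
      (R := fun g z => ∃ s, s < g.1.2 ∧ ∃ q, q < g.1.2 ∧
      Q ((((g.1.1, g.2), z), s), q)) ?_
    refine UPD_pi_bex hA.coll1 (t := fun g : ((M × M) × M) × M => g.1.1.2)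
      PMap.id.fst.fst.snd.rec
      (R := fun g s => ∃ q, q < g.1.1.2 ∧
      Q ((((g.1.1.1, g.1.2), g.2), s), q)) ?_
    refine UPD_pi_bex hA.coll1 (t := fun g : (((M × M) × M) × M) × M => g.1.1.1.2)
      PMap.id.fst.fst.fst.snd.rec
      (R := fun g q => Q ((((g.1.1.1.1, g.1.1.2), g.1.2), g.2), q)) ?_
    exact Pi1.comp (F := fun g : ((((M × M) × M) × M) × M) × M =>
      ((((g.1.1.1.1.1, g.1.1.1.2), g.1.1.2), g.1.2), g.2)) hQ
      ((((PMap.id.fst.fst.fst.fst.fst.prodMk PMap.id.fst.fst.fst.snd).prodMk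
        PMap.id.fst.fst.snd).prodMk PMap.id.fst.snd).prodMk PMap.id.snd).rec
  obtain ⟨b, hb⟩ := hA.coll _ hU a (by
    intro x hx
    obtain ⟨y, hy⟩ := hxy x hx
    obtain ⟨z, s, q, hq⟩ := hcompl x y hy
    refine ⟨y + z + s + q + 1, y, ?_, z, ?_, s, ?_, q, ?_, hq⟩
    · exact lt_add_one_iff'.mpr ((le_self_add.trans le_self_add).trans le_self_add)
    · exact lt_add_one_iff'.mpr ((le_add_self.trans le_self_add).trans le_self_add)
    · exact lt_add_one_iff'.mpr (le_add_self.trans le_self_add)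
    · exact lt_add_one_iff'.mpr le_add_self)
  refine ⟨b, fun x hx => ?_⟩
  obtain ⟨v, hv, y, hy, z, -, s, -, q, -, hq⟩ := hb x hx
  exact ⟨y, hy.trans hv, hsound x y z s q hq⟩

theorem st_UPD (hOR : ST_OR.{u}) (hOS : ST_OS.{u}) : ST_UPD.{u} := by
  intro M _ bd hbd A hA j hj G hG
  have hcoll : Coll1 (Function.update A j G) := UPD_coll hOR hOS hbd hA hG
  refine ⟨?_, hcoll⟩
  intro P hP h0 hs a
  obtain ⟨φ, hφ⟩ := hP.1
  obtain ⟨ψ, hψ⟩ := hP.2
  -- a bound for the witnesses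
  have h1 : D0 (Function.update A j G) (fun z : M × M =>
      φ.eval (Function.update A j G) (cons z.2 (env z.1)) ∨
        ψ.eval (Function.update A j G) (cons z.2 (env z.1))) := by
    have e1 : ∀ g : M × M, (env g : ℕ → M) = cons g.2 (env g.1) := fun g => env_cons g.1 g.2
    refine D0.or ⟨φ, fun g => ?_⟩ ⟨ψ, fun g => ?_⟩
    · rw [e1]
    · rw [e1]
  obtain ⟨b, hb⟩ := hcoll _ h1.sig1 (a + 1) (by
    intro x _
    by_cases hx : P x
    · obtain ⟨z, hz⟩ := (hφ x).mp hx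
      exact ⟨z, Or.inl hz⟩
    · obtain ⟨z, hz⟩ := (hψ x).mp hx
      exact ⟨z, Or.inr hz⟩)
  -- the bounded formula
  let χ : Fm M := .neg (.ball (.const b) (.neg φ))
  have hχ : ∀ (B : ℕ → Set M) (v : ℕ → M), χ.eval B v ↔ ∃ z, z < b ∧ φ.eval B (cons z v) := by
    intro B v
    change (¬ ∀ z, z < b → ¬ φ.eval B (cons z v)) ↔ _
    push Not
    rfl
  have hPχ : ∀ x, x < a + 1 → (P x ↔ χ.eval (Function.update A j G) (env x)) := by
    intro x hx
    rw [hχ]
    constructor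
    · intro hPx
      obtain ⟨z, hz, h2 | h2⟩ := hb x hx
      · exact ⟨z, hz, h2⟩
      · exact absurd hPx ((hψ x).mpr ⟨z, h2⟩)
    · rintro ⟨z, -, hz⟩
      exact (hφ x).mpr ⟨z, hz⟩
  obtain ⟨t, ht⟩ := hOR M χ j
  obtain ⟨s, hs'⟩ := UPD_code hbd hA hG (t.eval (env a))
  have hPs : ∀ x, x < a + 1 → (P x ↔ χ.eval (Function.update A j {y | el y s}) (env x)) := by
    intro x hx
    rw [hPχ x hx]
    refine ht A G {y | el y s} (env x) ?_
    intro w hw
    have h2 : t.eval (env x) ≤ t.eval (env a) := by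
      apply UPD_tm_mono
      intro i
      rw [env_self, env_self]
      cases i with
      | zero => exact lt_add_one_iff'.mp hx
      | succ i => exact le_rfl
    constructor
    · intro hwG
      exact (hs' w).mpr ⟨lt_of_lt_of_le hw h2, hwG⟩
    · intro h
      exact ((hs' w).mp h).2
  have hrec : RecP A (fun x : M => x < a + 1 → χ.eval (Function.update A j {y | el y s}) (env x)) := by
    refine RecP.imp (RecP.lt Rec.id (Rec.const _)) ?_
    exact hOS M bd hbd A hA.base χ j _ (fun i (g : M) => env g i)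
      (fun _ => s) (fun i => UPD_env_rec Rec.id i) (Rec.const s)
  have hfin := hA.base.ind _ hrec (by
    intro h
    exact (hPs 0 h).mp h0) (by
    intro x hx h
    have hx1 : x < a + 1 := (lt_add_one' x).trans h
    exact (hPs (x + 1) h).mp (hs x ((hPs x hx1).mpr (hx hx1)))) a
  exact (hPs a (lt_add_one' a)).mpr (hfin (lt_add_one' a))

end Pool.Agent.Helper70.BRT
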